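import Pool.Agent.Q132.RS.Base

/-! For every `m ≥ 0` the group `A₄ × C₂ ^ m` is R-sequenceable (Ringel's assertion). -/

namespace Pool.Agent.Q132.RS

/-- `(A₄ × C₂ ^ m) × (C₂ × C₂)` is `A₄ × C₂ ^ (m + 2)` -/
def ext (m : ℕ) : AC m × K ≃* AC (m + 2) where
  toFun x := (x.1.1, Fin.cons x.2.1 (Fin.cons x.2.2 x.1.2))
  invFun y := ((y.1, fun i => y.2 i.succ.succ), (y.2 0, y.2 1))
  left_inv x := by
    obtain ⟨⟨a, f⟩, u, v⟩ := x
    rfl
  right_inv y := by
    obtain ⟨a, f⟩ := y
    refine Prod.ext rfl ?_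
    funext i
    refine Fin.cases rfl (fun j => ?_) i
    refine Fin.cases rfl (fun k => rfl) j
  map_mul' x y := by
    obtain ⟨⟨a, f⟩, u, v⟩ := x
    obtain ⟨⟨a', f'⟩, u', v'⟩ := y
    refine Prod.ext rfl ?_
    funext i
    refine Fin.cases rfl (fun j => ?_) i
    refine Fin.cases rfl (fun k => rfl) j

theorem exists_star (m : ℕ) : ∃ L b c, L % 3 = 2 ∧ Star (AC m) L b c := by
  induction m using Nat.twoStepInduction with
  | zero => exact ⟨_, _, _, by norm_num, star0⟩
  | one => exact ⟨_, _, _, by norm_num, star1⟩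
  | more m ih _ =>
    obtain ⟨L, b, c, h1, h2⟩ := ih
    exact ⟨_, _, _, by omega, (h2.step h1).map (ext m)⟩

end Pool.Agent.Q132.RS

namespace Pool.Agent.Results.MP_0ef4f9_co.RingelSequencing

open Pool.Agent.Q132.RS

/-- Ringel's assertion: for every `m`, the `12 * 2 ^ m` elements of `A₄ × C₂ ^ m` can be listed as
`a 0 = 1, a 1, …`, each exactly once, so that the partial products `a 0 * ⋯ * a i`,
`i ≤ n - 2`, are pairwise distinct and the product of the whole list is `1`. -/
theorem result (m : ℕ) :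
    ∃ a : ℕ → alternatingGroup (Fin 4) × (Fin m → Multiplicative (ZMod 2)),
      a 0 = 1 ∧ Set.BijOn a (Set.Iio (12 * 2 ^ m)) Set.univ ∧
      Set.InjOn (fun i => ((List.range (i + 1)).map a).prod) (Set.Iio (12 * 2 ^ m - 1)) ∧
      ((List.range (12 * 2 ^ m)).map a).prod = 1 := by
  obtain ⟨L, b, c, _, h⟩ := exists_star m
  have hcard : Nat.card (AC m) = 12 * 2 ^ m := by
    rw [Nat.card_prod]
    have h1 : Nat.card (alternatingGroup (Fin 4)) = 12 := by
      rw [Nat.card_eq_fintype_card]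
      decide +kernel
    have h2 : Nat.card (Fin m → Multiplicative (ZMod 2)) = 2 ^ m := by
      rw [Nat.card_eq_fintype_card, Fintype.card_fun, Fintype.card_fin]
      rfl
    rw [h1, h2]
  obtain ⟨a, h0, h1, h2, h3⟩ := h.rSequenceable
  rw [hcard] at h1 h2 h3
  refine ⟨a, h0, h1, h2, ?_⟩
  have hpos : 0 < 2 ^ m := by positivity
  have e : 12 * 2 ^ m - 1 + 1 = 12 * 2 ^ m := by omega
  unfold partialProd at h3
  rw [e] at h3
  exact h3

end Pool.Agent.Results.MP_0ef4f9_co.RingelSequencing
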